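import Mathlib
import Pool.Agent.H30.T4D.Main

/-!
# Tate classes on abelian varieties of low dimension over finite fields

Every abelian variety over an algebraic closure of `𝔽_p` is isogenous to the reduction of an abelian
variety with complex multiplication (Honda, Tate).  Here such a variety is given by its CM pair
`A = (X, Φ)`: `X = Hom(E, L)` with its action of `Gal(L/ℚ)` and the CM type `Φ`.  Its cohomology algebra
with coefficients in a field `C` containing `L` is `⋀ (C ^ X)`, and Frobenius acts on the vector
of `x` through `p_x = ∏ g⁻¹ α`, the product over all `g` with `g x ∈ Φ`, where `α` generates a power of
the prime of `L` at which one reduces (Shimura and Taniyama; up to roots of unity).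

`Known A ω` says that `ω` is obtained from classes known to be algebraic by the theorems of Tate
(divisors) and Markman (Weil classes on abelian fourfolds, and on abelian sixfolds of discriminant
`-1`) by linear combinations, products, homomorphisms and integration over a factor.

A CM pair of Weil type of dimension six always has a polarization of discriminant `-1`.  Indeed let
`K` be the imaginary quadratic field, `E = F K` with `F` totally real of degree six; the polarizations
are given by the `t` in `F` with three positive and three negative real places, and have discriminant
`disc F · N t`, which is to be `-1` modulo norms from `K`.  At a prime `p` one can choose the sign of the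
symbol of `N t` as soon as some `F_v` does not contain `K_p`; if all `F_v` contain `K_p`, then `N t` is a
norm from `K_p` and `disc F` is `(-1) ^ 3` modulo norms, three being the sum of the degrees of the `F_v`
over `K_p`.  The product formula and primes of `F` with prescribed classes (and, if `F` is not a field,
pairs of places of degree one of different factors over a prime inert in `K`) give such a `t` in `F`.
Weil classes do not depend on the polarization.

The theorem says that all Tate classes `ω` on `A` satisfy `Known A ω` in the following cases.

* `A` has dimension at most `5`, and is not isogenous to `S × S' × E` with abelian surfaces `S`, `S'`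
  one of which is the reflex of the other and `E` a supersingular elliptic curve.
* `A` is the product of an ordinary abelian variety of dimension at most `7` and a supersingular one,
  without mixed quadruples: the relations `p_x p_y p_z p_w = q ^ 2` (up to roots of unity) between
  members which are not all conjugate come from pairs and from Weil classes.  So `A` may be any
  simple ordinary abelian variety of dimension `6`.
* `A` is a product of any numbers of copies of the simple factors of `B`, where `B` is the product of
  an abelian variety of dimension at most `5` and a supersingular one, without mixed triples: two
  surfaces in `B` are not reflex to each other, and if `B` contains a simple fourfold and an elliptic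
  curve with Frobenius elements `p_y` and `p_x`, then no `p_x p_y p_z` with `p_z` conjugate to `p_y` is
  `q ^ (3 / 2)` up to a root of unity.
* `A` is a product of any numbers of elliptic curves and abelian surfaces, powers of one abelian
  threefold, and a supersingular abelian variety, without mixed triples and quadruples: there is no
  relation `p_x p_y p_z p_w = q ^ 2` (up to a root of unity) between three surfaces.
* `A` is a product of any numbers of copies of the simple factors of `B`, where `B` is the product of
  an ordinary abelian variety of dimension at most `6` and a supersingular one, without mixed
  quadruples that start in a surface or a fourfold, and not the product of an elliptic curve and a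
  fivefold with a relation `p_x ^ 3 p_1 ⋯ p_5 = q ^ 4` (up to a root of unity).  So `A` may be any
  power of a simple ordinary abelian variety of dimension `6`, or a product of any powers of two
  simple ordinary threefolds.

If the prime number below `P` splits completely in `L`, all members are ordinary and the theorem is at
the same time one about abelian varieties with complex multiplication over number fields.

* The decomposition group of `P` is trivial, so the valuation of `p_x` at `g⁻¹ P` is `h` or `0`
  according to whether `g x` is in `Φ` or not, for every `g`.  Hence the monomial of a set `S` of members
  is a Tate class if and only if half of the members `x` of `S` satisfy `g x ∈ Φ`, for every `g`; these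
  monomials span the Tate classes of `A` over number fields, which are the combinations of Hodge
  classes (Pohlmann 1968).
* The classes `Known A ω` are then algebraic in characteristic zero, over a finite extension:
  `Known.tate` gives Hodge classes of degree two (Lefschetz), in `Known.hom` two members have the same
  Frobenius element up to roots of unity if and only if their CM types agree on all conjugates, which
  gives homomorphisms (Riemann), and the theorem of Markman is one about abelian varieties over `ℂ`.
-/

namespace Pool.Agent.Results.MP_0fca13_ag.AbelianFourfolds

open Pool.Agent.H30.T4D NumberField

/-- `L` is a Galois CM field with complex conjugation `c`, `P` a prime of `L`, `α` a generator of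
`P ^ h` and `q` its norm, `(X, Φ)` is a CM pair with Frobenius elements `p x`.  Suppose that

* `X` has at most ten members, and no supersingular member or no mixed triple, or
* the members of `X` that are not supersingular are ordinary, at most fourteen in number, without
  mixed quadruples `IsQuad`, or
* `(X, Φ)` maps to a CM pair `(Y, Ψ)` whose members that are not supersingular
  - are at most ten in number, without mixed triples, or
  - lie in orbits of at most six members, at most six of them in orbits of six members, without
    mixed triples and mixed quadruples `IsMixed4`, or
  - are ordinary, at most twelve in number, without relations `IsOct` and mixed quadruples `IsQuad`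
    whose first member has four or eight conjugates.

Then every Tate class `ω` on `(X, Φ)` satisfies `Known ω`. -/
theorem result (L : Type) [Field L] [NumberField L] [IsGalois ℚ L] (c : L ≃ₐ[ℚ] L) (hc : IsConj c)
    (P : Ideal (𝓞 L)) (hP : P.IsPrime) (hP0 : P ≠ ⊥) (α : 𝓞 L) (h : ℕ) (hh : 1 ≤ h)
    (hα : Ideal.span {α} = P ^ h) (q : ℕ) (hq : (q : L) = ∏ g : L ≃ₐ[ℚ] L, g (α : L))
    (C : Type) [Field C] (i : L →+* C)
    (X : Type) (act : (L ≃ₐ[ℚ] L) → X → X) (Φ : Set X) (hX : CMPair c act Φ)
    (p : X → L) (hp : p = frobOf (α : L) act Φ)
    (hA : (Nat.card X ≤ 10 ∧ ∀ x y z w : X, IsMixed p q act x y z → ¬ IsSS p q w) ∨
      ({x | ¬ IsSS p q x}.ncard ≤ 14 ∧ (∀ x, ¬ IsSS p q x → IsOrd p c act x) ∧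
        ∀ x y z w : X, ¬ IsQuad p q act x y z w) ∨
      ∃ (Y : Type) (actY : (L ≃ₐ[ℚ] L) → Y → Y) (Ψ : Set Y) (r : Y → L) (f : X → Y),
        CMPair c actY Ψ ∧ r = frobOf (α : L) actY Ψ ∧ IsMor act Φ actY Ψ f ∧
        (((∀ x y z : Y, ¬ IsMixed r q actY x y z) ∧ {x | ¬ IsSS r q x}.ncard ≤ 10) ∨
          ((∀ x y z : Y, ¬ IsMixed r q actY x y z) ∧
            (∀ x y z w : Y, ¬ IsMixed4 r q actY x y z w) ∧
            (∀ x, ¬ IsSS r q x → deg actY x ≤ 6) ∧ {x | ¬ IsSS r q x ∧ deg actY x = 6}.ncard ≤ 6) ∨
          ((∀ x, ¬ IsSS r q x → IsOrd r c actY x) ∧ {x | ¬ IsSS r q x}.ncard ≤ 12 ∧
            (∀ x y z w : Y, (deg actY x = 4 ∨ deg actY x = 8) → ¬ IsQuad r q actY x y z w) ∧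
            ∀ (x : Y) (T : Finset Y), ¬ IsOct r q actY x T)))
    (ω : ExteriorAlgebra C (X →₀ C)) (hω : IsTate i p q ω) : Known i (α : L) q c X act Φ ω :=
  main L c hc P hP hP0 α h hh hα q hq C i X act Φ hX p hp hA ω hω

end Pool.Agent.Results.MP_0fca13_ag.AbelianFourfolds
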