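import Mathlib
import Pool.Agent.H29.AF.All
import Pool.Agent.H83.T4.All
import Pool.Agent.H96.T4.V7

/-!
# Almost all hyperelliptic surfaces, of every degree and over every base curve over every finite field
# of odd order, up to a quadratic twist from a finite list: the Tate conjecture

`F` is a finite field of odd order, `K` a field which is finitely generated and of transcendence
degree one over `F`, that is, the function field of a curve `C`; `v` is a place of `K` (a valuation
ring different from `K`), `N ≥ 3` is the degree of the equations `y² = f(x)` and `EqnV v N j h` is the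
family of all equations of degree `N`, of height `j`.

* `N = 2 g + 2` even, the universal family of hyperelliptic curves of genus `g`: `h ≥ 0` is fixed, and
  `f = f₀ x^N + f₁ x^(N-1) + ... + f_N` is any polynomial over `K` such that `fᵢ` is regular outside `v`
  and has at `v` a pole of order at most `j + i h`; nothing else is required.
* `N = 2 g + 1` odd, the curves of genus `g` with a rational Weierstrass point: `f` is any separable
  `x^N + a₁ x^(N-1) + ... + a_N` over `K` such that `aᵢ` is regular outside `v` and has at `v` a pole
  of order at most `i j`.  For `N = 3` and `a₁ = 0`: all elliptic curves `y² = x³ + a x + b`.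

The theorem: for every `ε > 0` there is a finite set `D` of nonzero elements of `K` such that for large
`j` all but at most `ε #(EqnV v N j h)` elements `f` of `EqnV v N j h` have a twist `y² = d f(x)`, `d` in
`D`, for which `GoodN N (d f)` holds: `d f` has degree `N` and is irreducible and separable, the image
of the 2-Selmer group over `K` of the Jacobian `J` of `y² = d f(x)` under `x - X` is trivial (`SelD`),
and for even `N` there is exactly one place of `K` over which the curve `y² = d f(x)` has no divisor of
odd degree (`OneDefF`).  So `J` has rank zero and the 2-primary part of its Tate-Shafarevich group is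
trivial or of order two: for odd `N` the 2-Selmer group of `J` is trivial.  For even `N` the kernel of
the map from the 2-Selmer group to `Aˣ / Kˣ (Aˣ)²`, `A = K[x] / (f)`, has at most two elements; its
nontrivial element, if there is one, is the class of the divisors of degree one; if `4` divides `N` this
class is not in the Selmer group, because of the exceptional place; if `N = 2` modulo `4` the 2-Selmer
group has order two and is generated by this class, which by Poonen and Stoll does not pair trivially
with itself, as there is exactly one exceptional place.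

Consequences (by quoted theorems, not formalised).

(1) The 2-primary part of the Tate-Shafarevich group of `J` is finite, so is that of the Brauer group
of the surface `X : y² = d f(x)`, and the Tate conjecture holds for `X` by the theorem of Artin, Tate
and Milne (for even `N`: Gordon; Liu, Lorenzini and Raynaud; Kato and Trihan).  The strong form holds
too: `J` has analytic rank zero and satisfies the conjecture of Birch and Swinnerton-Dyer.

(2) For two of these surfaces `X`, `X'` the Tate conjecture holds in all codimensions for the smooth
projective models, of dimension three, of `X ×_C X'`: the invariants in `H¹(C, V J)` vanish, those in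
`H⁰(C, V J ⊗ V J' (-1))` are `Hom(J, J') ⊗ ℚ_ℓ` by Zarhin, which gives the divisors, and the hard
Lefschetz theorem gives the curves.

(3) In particular for some `d` in `D` at least the proportion `(1 - ε) / #D` of all `f` has the twist
by `d`; `d f` is again in the family (`d` may be multiplied by squares so that it is regular outside
`v`; for odd `N` replace `d f(x)` by `d^N f(x / d)`), of height `j + c`, and a positive proportion of
all equations is good.
-/

open Polynomial

namespace Pool.Agent.Results.MP_0fca13_ag.AlmostAllHyperelliptic

section Defs

variable {K : Type} [Field K]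

/-- The element `a` of `K` is regular outside the place `v` and has there a pole of order at most
`m`. -/
def PoleV (v : ValuationSubring K) (m : ℕ) (a : K) : Prop :=
  (∀ w : ValuationSubring K, w ≠ v → a ∈ w) ∧ ∀ π : K, π ∈ v → π⁻¹ ∉ v → a * π ^ m ∈ v

/-- The equations `y² = f(x)` of degree `N`.  `N` even: all `f = f₀ x^N + f₁ x^(N-1) + ... + f_N` such
that `fᵢ` is regular outside `v` and has a pole of order at most `j + i h` at `v`.  `N` odd: all
separable `f = x^N + a₁ x^(N-1) + ... + a_N` such that `aᵢ` is regular outside `v` and has a pole of
order at most `i j` at `v`. -/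
def EqnV (v : ValuationSubring K) (N j h : ℕ) : Set K[X] :=
  {f | (Even N → f.natDegree ≤ N ∧ ∀ i ≤ N, PoleV v (j + i * h) (f.coeff (N - i))) ∧
    (Odd N → f.Monic ∧ f.natDegree = N ∧ (∀ i ≤ N, PoleV v (i * j) (f.coeff (N - i))) ∧
      f.Separable)}

/-- `L`, with the valuation ring `O`, is a completion of `K`: it is a complete discretely valued
field with finite residue field and `K` is dense in it. -/
structure Completion (K : Type) [Field K] (L : Type) [Field L] (O : ValuationSubring L)
    (ι : K →+* L) : Prop where
  dvr : IsDiscreteValuationRing O
  complete : IsAdicComplete (IsLocalRing.maximalIdeal O) O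
  fin : Finite (IsLocalRing.ResidueField O)
  dense : ∀ z a : L, a ≠ 0 → ∃ x : K, (z - ι x) / a ∈ O

/-- Over `L`, up to a constant and modulo squares, `p` is the class modulo `g` of a divisor of the
curve `y² = g(x)` of even degree: of a monic polynomial `u` of even degree, prime to `g`, such that `g`
is a square modulo `u`. -/
def Loc {L : Type} [Field L] (ι : K →+* L) (g p : K[X]) : Prop :=
  ∃ (u w s : L[X]) (c : L), u.Monic ∧ Even u.natDegree ∧ IsCoprime u (g.map ι) ∧
    u ∣ w ^ 2 - g.map ι ∧ c ≠ 0 ∧ g.map ι ∣ u - C c * (p.map ι * s ^ 2)

/-- The 2-Selmer group over `K` of the Jacobian of `y² = g(x)` has trivial image under `x - X`: every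
`p` prime to `g` whose norm from `K[x]/(g)` is a square and whose class is, over every completion of
`K`, the class of a divisor, is modulo `g` a constant times a square. -/
def SelD (g : K[X]) : Prop :=
  ∀ p : K[X], IsCoprime p g → IsSquare (Algebra.norm K (AdjoinRoot.mk g p)) →
    (∀ (L : Type) [Field L] (O : ValuationSubring L) (ι : K →+* L), Completion K L O ι →
      Loc ι g p) →
    ∃ (c : K) (s : K[X]), c ≠ 0 ∧ g ∣ p - C c * s ^ 2

/-- Over `L` the curve `y² = g(x)`, `g` of even degree, has no divisor of odd degree. -/
def NoOdd {L : Type} [Field L] (ι : K →+* L) (g : K[X]) : Prop :=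
  ¬ IsSquare (g.map ι).leadingCoeff ∧
    ∀ u w : L[X], u.Monic → u ∣ w ^ 2 - g.map ι → Even u.natDegree

/-- There is exactly one place of `K` over whose completion the curve `y² = g(x)`, `g` of even degree,
has no divisor of odd degree. -/
def OneDefF (g : K[X]) : Prop :=
  ∃! v : ValuationSubring K, ∃ (L : Type) (_ : Field L) (O : ValuationSubring L) (ι : K →+* L),
    Completion K L O ι ∧ O.comap ι = v ∧ NoOdd ι g

/-- `g` has degree `N`, is irreducible and separable, the image of the 2-Selmer group of the Jacobian
of `y² = g(x)` is trivial, and for even `N` there is exactly one place where the curve has no divisor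
of odd degree. -/
def GoodN (N : ℕ) (g : K[X]) : Prop :=
  g.natDegree = N ∧ Irreducible g ∧ g.Separable ∧ SelD g ∧ (Even N → OneDefF g)

end Defs

section Same

variable {K : Type} [Field K]

theorem completion_iff {L : Type} [Field L] {O : ValuationSubring L} {ι : K →+* L} :
    Completion K L O ι ↔ Pool.TOW.Cpl K L O ι :=
  ⟨fun h => ⟨h.1, h.2, h.3, h.4⟩, fun h => ⟨h.1, h.2, h.3, h.4⟩⟩

theorem loc_iff {L : Type} [Field L] {ι : K →+* L} {g p : K[X]} :
    Loc ι g p ↔ Pool.T2.LocDv 1 (g.map ι) (p.map ι) := by
  unfold Loc Pool.T2.LocDv
  simp only [C_1, one_mul]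

theorem selD_iff {g : K[X]} : SelD g ↔ Pool.T2.SelD 1 g := by
  unfold SelD Pool.T2.SelD
  simp only [completion_iff, loc_iff, map_one]

theorem noOdd_iff {L : Type} [Field L] {ι : K →+* L} {g : K[X]} :
    NoOdd ι g ↔ Pool.T3.NoOddF (g.map ι) := Iff.rfl

theorem oneDefF_iff {g : K[X]} : OneDefF g ↔ Pool.T3.OneDefF g := by
  unfold OneDefF Pool.T3.OneDefF
  simp only [completion_iff, noOdd_iff]

theorem goodN_iff {N : ℕ} {g : K[X]} : GoodN N g ↔ Pool.T4.GoodN N g := by
  unfold GoodN Pool.T4.GoodN
  rw [selD_iff, oneDefF_iff]

theorem eqnV_eq (v : ValuationSubring K) (N j h : ℕ) : EqnV v N j h = Pool.T3.EqnV v N j h := rfl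

end Same

/-- For every finite field `F` of odd order, every finitely generated field `K` of transcendence
degree one over `F`, every place `v` of `K`, every `N ≥ 3` and `h ≥ 0` and every `ε > 0` there is a
finite set `D` of nonzero elements of `K` such that for large `j` the set `EqnV v N j h` is finite and
not empty, and all but at most `ε #(EqnV v N j h)` of its elements `f` have a `d` in `D` with
`GoodN N (d f)`; and, for odd `N` not zero in `F`, the same for the elements with `a₁ = 0`. -/
theorem result (F : Type) [Field F] [Finite F] (h2 : (2 : F) ≠ 0) (K : Type) [Field K]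
    [Algebra F K] [Algebra.EssFiniteType F K] (htr : Algebra.trdeg F K = 1)
    (v : ValuationSubring K) (hv : v ≠ ⊤) (N h : ℕ) (hN : 3 ≤ N) (ε : ℝ) (hε : 0 < ε) :
    ∃ D : Finset K, (0 : K) ∉ D ∧ ∃ j0 : ℕ, ∀ j : ℕ, j0 ≤ j →
      (EqnV v N j h).Finite ∧ 0 < (EqnV v N j h).ncard ∧
      ({f ∈ EqnV v N j h | ¬ ∃ d ∈ D, GoodN N (C d * f)}.ncard : ℝ) ≤
        ε * (EqnV v N j h).ncard ∧
      (Odd N → (N : F) ≠ 0 →
        0 < {f ∈ EqnV v N j h | f.coeff (N - 1) = 0}.ncard ∧
        ({f ∈ EqnV v N j h | f.coeff (N - 1) = 0 ∧ ¬ ∃ d ∈ D, GoodN N (C d * f)}.ncard : ℝ) ≤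
          ε * {f ∈ EqnV v N j h | f.coeff (N - 1) = 0}.ncard) := by
  simp only [goodN_iff, eqnV_eq]
  exact Pool.T4.twist Pool.AF.All.h_intra Pool.T4.All.h_intb F h2 K htr v hv N h hN ε hε

end Pool.Agent.Results.MP_0fca13_ag.AlmostAllHyperelliptic
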