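import Mathlib
import Pool.Agent.H83.T3.All
import Pool.Agent.H96.STR.All
import Pool.Agent.H96.T3.V6

/-!
# The Tate conjecture for a positive proportion of all hyperelliptic surfaces of every degree, and of
# all surfaces `y^m = f(x)`, `m` a power of two, `deg f` odd, over every base curve over every finite
# field of odd order

`F` is a finite field of odd order, `K` a field which is finitely generated and of transcendence
degree one over `F`, that is, the function field of a curve `C`; `v` is a place of `K` (a valuation
ring different from `K`) and `N ≥ 3` is the degree of the equations `y² = f(x)`.  `EqnV v N j h` is the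
family of all equations of degree `N`, of height `j`.

* `N = 2 g + 2` even, the universal family of hyperelliptic curves of genus `g`: `h ≥ 0` is fixed, and
  `f = f₀ x^N + f₁ x^(N-1) + ... + f_N` is any polynomial over `K` such that `fᵢ` is regular outside `v`
  and has at `v` a pole of order at most `j + i h`; nothing else is required.  So for `h = 0`, `f` is
  any section of the line bundle `𝒪(N) ⊗ 𝒪(j v)` on `ℙ¹ × C`, and in general any section of such a line
  bundle on the ruled surface `ℙ(𝒪 + 𝒪(h v))` over `C` (for `K = F(t)` and `v` of degree one, on all the
  Hirzebruch surfaces); the surface `y² = f(x)` is the double covering which is branched along its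
  divisor, and along the fibre of `v` if `j` is odd.
* `N = 2 g + 1` odd, the curves of genus `g` with a rational Weierstrass point: `f` is any separable
  `x^N + a₁ x^(N-1) + ... + a_N` over `K` such that `aᵢ` is regular outside `v` and has at `v` a pole
  of order at most `i j`; so `aᵢ` is any section of the line bundle of the divisor `i j v`.

For large `j` a positive proportion of all `f` in `EqnV v N j h` has degree `N`, is irreducible and
separable, and has the following properties.

All degrees: `SelD f`, that is, the image of the 2-Selmer group over `K` of the Jacobian `J` of the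
curve `y² = f(x)` under `x - X` is trivial.

Even degree: `OneDefF f`: there is exactly one place of `K` over which the curve `y² = f(x)` has no
divisor of odd degree.  (In `SelD` it is enough that the local classes are classes of divisors: at all
places but one the curve has divisors of degree one, so every rational divisor class is the class of a
divisor, and at the last place this follows by reciprocity.)  The kernel of the map from the 2-Selmer
group of `J` to `Aˣ / Kˣ (Aˣ)²`, `A = K[x] / (f)`, has at most two elements; its nontrivial element, if
there is one, is the class of the divisors of degree one.  If `4` divides `N` this class is not in the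
Selmer group, because of the exceptional place, so the 2-Selmer group of `J` is trivial; if `N = 2`
modulo `4` it has order two and is generated by this class, which by Poonen and Stoll does not pair
trivially with itself, as there is exactly one exceptional place.  So `J` has rank zero, and the
2-primary part of its Tate-Shafarevich group is trivial or of order two.

Odd degree.  Then the 2-Selmer group of `J` is trivial, and much more is true.  `y^m = f(x)`, for `m` a
power of two, is a curve over `K` of genus `(N - 1)(m - 1)/2` with a rational point at infinity.  Let
`E` be an extension of `K` which contains a primitive `m`-th root of unity `ζ`.  `SelM m f` says that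
the `(1 - ζ)`-Selmer group over `E` of the Jacobian `J` of `y^m = f(x)`, in its classical description, is
trivial: `A = E[x] / (f)`, the classes of `Aˣ / (Aˣ)^m` whose norm is an `m`-th power and which over all
completions of `E` are classes of divisors, are trivial (`J[1 - ζ]` is generated by the points with
`y = 0` and is the kernel of the norm `μ_m(A) → μ_m`, as `N` is odd).  For `m = 2` this is the 2-Selmer
group of the hyperelliptic curve `y² = f(x)`.  `SelA f` is the conjunction for all powers `m` of two for
which `E` contains a primitive `m`-th root of unity.  Let `E₀` be any Galois extension of `K` of degree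
a power of two (for instance `K` itself, or `K(ζ)`, `ζ` a root of unity of order a power of two), and
let `S` be any finite set of places different from `v`.  There are disjoint finite sets `T` and `T'` of
places different from `v`, `T` not empty and split completely in `E₀`, `S` contained in `T'` (`SetsV`),
such that all the `f` of the positive proportion satisfy:

* `SelA f` holds over `E₀`, and over every Galois extension `E` of `K` of degree a power of two in
  which the places of `T` split completely and the places different from `v` modulo which `f` is not
  irreducible are unramified (`TowA`);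
* the local structure of `f` is as follows (`StrV`): `f` is irreducible over the completions at `v` and
  at the places of `T'`, and irreducible modulo the places of `S`; the scheme `f(x) = 0`, hence also
  `y² = f(x)`, is regular at all places outside `T`, `T'` and `v`, where the fibres of `y² = f(x)` are
  irreducible and reduced; at the places of `T` the curve `y² = f(x)` has good reduction,
  `f = (x - c) γ` with `γ` irreducible modulo `w`, or it is the quadratic twist of such a curve by a
  uniformizer.

The same holds for the equations of odd degree `N` with `a₁ = 0` if the characteristic does not divide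
`N`.

Consequences (by quoted theorems, not formalised).

(1) In all cases, even or odd degree, the 2-primary part of the Tate-Shafarevich group of the Jacobian
`J` is finite (over `K`, and for odd `N` also over `E₀` and `E`; `(1 - ζ)^m` is divisible by two in the
endomorphism ring of the Jacobian of `y^m = f(x)`), so is that of the Brauer group of the surface, and
the Tate conjecture holds for the surface by the theorem of Artin, Tate and Milne (for even `N`, where
there is no section: Gordon; Liu, Lorenzini and Raynaud; Kato and Trihan).

(2) Odd degree, products over `C`: the conjecture holds in all codimensions for the smooth projective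
models, of dimension three, of `X ×_C X'`, `X` and `X'` two of these surfaces `y^m = f(x)` over `C`: the invariants in
`H¹(C, V J)` vanish, those in `H⁰(C, V J ⊗ V J' (-1))` are `Hom(J, J') ⊗ ℚ_ℓ` by Zarhin, which gives the
divisors, and the hard Lefschetz theorem gives the curves.

(3) Odd degree, twisted coefficients: `J` is the Jacobian of `y² = f(x)`, `V = V_2 J`.  Let `M` be a
free `ℤ_2`-module of finite rank with a continuous action of the absolute Galois group of `K`,
unramified outside `S` and `v`, with Frobenius eigenvalues of weight zero outside `S` and `v`, such
that the Galois group acts on `M/2` through a group of order a power of two; let `E₀` trivialise `M/2`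
and be unramified outside `S` and `v` (`S` is given after `E₀`).  Then `H¹(U, V ⊗ M) = 0` for every open
subset `U` of `C` over which `V` and `M` are unramified.  Restriction to `E₀` is injective, and the local
structure is preserved: `T` splits in `E₀`, and `f`, of odd degree, stays irreducible over the
completions at the places over `v` and `T'`; so let `E₀ = K`.  If `H¹(U, V ⊗ M)` is not zero, take a class
`ξ` in the torsion free group `H¹(U, T_2 J ⊗ M)` which is not divisible by two; its image in
`H¹(U, J[2]) ⊗ M/2` is not zero, and it is in the trivial group `Sel_2(J) ⊗ M/2`.  This is checked at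
every place `w`: at `v` and `T'` because `H¹(K_w, J[2]) = 0`, as `J[2]` has no invariants.  At all other
places `H¹(K_w, V ⊗ M)` vanishes by weights, so `ξ` comes from an element `z` of
`H⁰(K_w, V/T_2 J ⊗ M)`, and its image is the cocycle `(s - 1) z'`, `2 z' = z`.  At the places outside `T`,
`T'` and `v` the Néron model has connected fibres, as the regular model `y² = f(x)` has irreducible
reduced fibres; so `z'` can be chosen invariant under inertia, the class is unramified, and it is that
of a point, by Lang.  The same holds at the places of `T` with good reduction.  At the twisted places of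
`T` the inertia invariants of `V/T_2 J` are `J[2]`, with the Frobenius invariants `{0, e}`; so
`z = e ⊗ m`, and the class is `κ(e) ⊗ m + η`, `κ` the Kummer map and `η` the unramified class given by
`e ⊗ m'`, where Frobenius maps `m` to `m + 2 m'`; here `e` is the sum of the `2 g` roots of `γ`, which
Frobenius permutes cyclically, `2 g` is even, so `e` is in the image of `Frobenius - 1` on `J[2]`, and
`η = 0`.

(4) Odd degree, products over `F`: let `X` be a smooth projective model of `y² = f(x)` over `C`, and
`Y` a smooth projective variety over `F` such that Frobenius acts unipotently modulo two on the groups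
`H^(2i)(Y, ℤ_2)(i)` modulo torsion (this holds for every `Y` after a finite extension of `F` of odd
degree); let `E₀` contain the constant extension over which it acts trivially modulo two.  If the
conjecture holds in all codimensions for `C × Y`, and for `Y` over all finite extensions of `F`, then
it holds in all codimensions for `X × Y`.  Indeed `H²(X)(1)` is the direct sum of a permutation module
spanned by the classes of a section and of the components of the fibres, and of `H¹(C, j_* V)`; apply
(3) with `M = H^(2i)(Y, ℤ_2)(i)` modulo torsion.  The constant part of `J` is zero: by the local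
structure at `v` and at a place of `T` the Galois group of `f` over `K` is doubly transitive, so its
normal subgroup over `K F̄` is transitive, and `J[2]` has no invariants over `K F̄`.  Examples: `Y` a K3
surface, after a finite extension of `F`; and, if `E₀` contains the field with `q²` elements, `q = #F`, one
and the same `X` and all products `Y = E_1 × ... × E_n` of elliptic curves over `F` with `#E_i(F)` even (a
unipotent matrix of size two over `𝔽_2` has square one; the conjecture for `C × Y`, `C` any curve, is
contained in the theorem `AbelianFourfolds`, and for the projective line it is due to Spiess).  For these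
products the same is true for `y^m = f(x)`, `m` a power of two, if `E₀` contains the field with `q^m`
elements: replace `2` by `1 - ζ_m` and `M/2` by `M/m` (and `e` by `(m/2) e` in the last step of (3)).
Another example is a Fermat surface `Y` of degree `m` a power of two (Frobenius is unipotent modulo two,
its eigenvalues being Jacobi sums), and then also the toroidal resolutions of the fourfold
`(X × Y) / μ_m`, `X : z^m = f(x)`, which is birational to `y_1^m + y_2^m + y_3^m = f(x)`; in dimension
three all smooth projective models of `y_1^a + y_2^b = f(x)`, `a` and `b` powers of two.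

(5) Odd degree, fibre products: let `E'`, `E''` be elliptic curves over `K` with rational points of
order two, `S` the set of the places different from `v` where one of them has bad reduction, and `E₀`
the extension generated by the points of order two.  By (3) with `M = T_2 E' ⊗ T_2 E''(-1)` there are no
Tate classes in `H¹(C, j_*(V ⊗ M))`, the part of `H⁴` of the fourfold `X ×_C E' ×_C E''` with these
coefficients.

(6) Odd degree, pencils of quadrics: let `A = K[x]/(f)`, `b` the class of `x`, `N = 2 g + 1`, `g ≥ 2`.
The intersection of the quadrics `Tr(l² / f'(b)) = 0` and `Tr(b l² / f'(b)) + u² = 0` in the projective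
space of `A + K`, of dimension `2 g + 1`, has a smooth projective model over `C` of dimension `2 g`, for
which the conjecture holds in all codimensions, in the strong form (the order of the pole of the zeta
function at `j` is the rank of the group of the classes of codimension `j`): the zeta function is that
of `X` up to known factors; the proof uses only the local structure of `f` and (1).
-/

open Polynomial

namespace Pool.Agent.Results.MP_0fca13_ag.HyperellipticSurfaces

section Defs

/-! ### The family -/

variable {K : Type} [Field K]

/-- The element `a` of `K` is regular outside the place `v` and has there a pole of order at most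
`m`. -/
def PoleV (v : ValuationSubring K) (m : ℕ) (a : K) : Prop :=
  (∀ w : ValuationSubring K, w ≠ v → a ∈ w) ∧ ∀ π : K, π ∈ v → π⁻¹ ∉ v → a * π ^ m ∈ v

/-- The equations `y² = f(x)` of degree `N`.  `N` even: all `f = f₀ x^N + f₁ x^(N-1) + ... + f_N` such
that `fᵢ` is regular outside `v` and has a pole of order at most `j + i h` at `v`.  `N` odd: all
separable `f = x^N + a₁ x^(N-1) + ... + a_N` such that `aᵢ` is regular outside `v` and has a pole of
order at most `i j` at `v`. -/
def EqnV (v : ValuationSubring K) (N j h : ℕ) : Set K[X] :=
  {f | (Even N → f.natDegree ≤ N ∧ ∀ i ≤ N, PoleV v (j + i * h) (f.coeff (N - i))) ∧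
    (Odd N → f.Monic ∧ f.natDegree = N ∧ (∀ i ≤ N, PoleV v (i * j) (f.coeff (N - i))) ∧
      f.Separable)}

/-! ### Selmer groups -/

/-- The field `K` is dense in the field `L` with the valuation ring `O`. -/
def DenseIn {L : Type} [Field L] (O : ValuationSubring L) (κ : K →+* L) : Prop :=
  ∀ z a : L, a ≠ 0 → ∃ x : K, (z - κ x) / a ∈ O

/-- The maximal ideal of `O` is generated by elements of the maximal ideal of `w`. -/
def GenBy {L : Type} [Field L] (w : ValuationSubring K) (O : ValuationSubring L) (κ : K →+* L) :
    Prop :=
  ∀ z : L, z ∈ O → z⁻¹ ∉ O → ∃ x : K, x ∈ w ∧ x⁻¹ ∉ w ∧ z / κ x ∈ O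

/-- `L`, with the valuation ring `O`, is a completion of `E`: it is a complete discretely valued
field with finite residue field and `E` is dense in it. -/
structure Completion (E : Type) [Field E] (L : Type) [Field L] (O : ValuationSubring L)
    (ι : E →+* L) : Prop where
  dvr : IsDiscreteValuationRing O
  complete : IsAdicComplete (IsLocalRing.maximalIdeal O) O
  fin : Finite (IsLocalRing.ResidueField O)
  dense : DenseIn O ι

/-- Over `L`, up to a constant and modulo squares, `p` is the class modulo `f` of a divisor of the
curve `y² = f(x)` of even degree: of a monic polynomial `u` of even degree, prime to `f`, such that `f`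
is a square modulo `u`. -/
def LocD {L : Type} [Field L] (ι : K →+* L) (f p : K[X]) : Prop :=
  ∃ (u w s : L[X]) (c : L), u.Monic ∧ Even u.natDegree ∧ IsCoprime u (f.map ι) ∧
    u ∣ w ^ 2 - f.map ι ∧ c ≠ 0 ∧ f.map ι ∣ u - C c * (p.map ι * s ^ 2)

/-- The 2-Selmer group over `K` of the Jacobian of `y² = f(x)` has trivial image under `x - X`: every
`p` prime to `f` whose norm from `K[x]/(f)` is a square and whose class is, over every completion of
`K`, the class of a divisor, is modulo `f` a constant times a square. -/
def SelD (f : K[X]) : Prop :=
  ∀ p : K[X], IsCoprime p f → IsSquare (Algebra.norm K (AdjoinRoot.mk f p)) →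
    (∀ (L : Type) [Field L] (O : ValuationSubring L) (ι : K →+* L), Completion K L O ι →
      LocD ι f p) →
    ∃ (c : K) (s : K[X]), c ≠ 0 ∧ f ∣ p - C c * s ^ 2

/-- Over `L` the curve `y² = f(x)`, `f` of even degree, has no divisor of odd degree. -/
def NoOdd {L : Type} [Field L] (ι : K →+* L) (f : K[X]) : Prop :=
  ¬ IsSquare (f.map ι).leadingCoeff ∧
    ∀ u w : L[X], u.Monic → u ∣ w ^ 2 - f.map ι → Even u.natDegree

/-- There is exactly one place of `K` over whose completion the curve `y² = f(x)`, `f` of even degree,
has no divisor of odd degree. -/
def OneDefF (f : K[X]) : Prop :=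
  ∃! v : ValuationSubring K, ∃ (L : Type) (_ : Field L) (O : ValuationSubring L) (ι : K →+* L),
    Completion K L O ι ∧ O.comap ι = v ∧ NoOdd ι f

/-- Over `L`, modulo `m`-th powers, `p` is the class modulo `f` of a divisor of the curve
`y^m = f(x)`: of `(-1)^(deg u) u`, for a monic polynomial `u`, prime to `f`, such that `f` is an `m`-th
power modulo `u`. -/
def LocM {E L : Type} [Field E] [Field L] (ι : E →+* L) (m : ℕ) (f p : E[X]) : Prop :=
  ∃ u w s : L[X], u.Monic ∧ IsCoprime u (f.map ι) ∧ u ∣ w ^ m - f.map ι ∧
    f.map ι ∣ (-1) ^ u.natDegree * u - p.map ι * s ^ m

/-- The `(1 - ζ)`-Selmer group over `E` of the Jacobian of `y^m = f(x)` is trivial (`ζ` a primitive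
`m`-th root of unity in `E`): every `p` prime to `f` whose norm from `E[x]/(f)` is an `m`-th power
and whose class is, over every completion of `E`, the class of a divisor, is an `m`-th power modulo
`f`. -/
def SelM {E : Type} [Field E] (m : ℕ) (f : E[X]) : Prop :=
  ∀ p : E[X], IsCoprime p f → (∃ c : E, Algebra.norm E (AdjoinRoot.mk f p) = c ^ m) →
    (∀ (L : Type) [Field L] (O : ValuationSubring L) (ι : E →+* L), Completion E L O ι →
      LocM ι m f p) →
    ∃ s : E[X], f ∣ p - s ^ m

/-- `SelM m f` over `E` for every power `m` of two such that `E` contains a primitive `m`-th root of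
unity. -/
def SelA (E : Type) [Field E] [Algebra K E] (f : K[X]) : Prop :=
  ∀ j : ℕ, (∃ ζ : E, IsPrimitiveRoot ζ (2 ^ j)) → SelM (2 ^ j) (f.map (algebraMap K E))

/-! ### Places -/

/-- `L`, with the valuation ring `O`, is a completion of the extension `E` of `K` above the place
`w` of `K`. -/
def Above (E : Type) [Field E] [Algebra K E] (w : ValuationSubring K) (L : Type) [Field L]
    (O : ValuationSubring L) (ι : E →+* L) : Prop :=
  Completion E L O ι ∧ O.comap (ι.comp (algebraMap K E)) = w

/-- The place `w` of `K` splits completely in `E`: `K` is dense in every completion of `E`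
above `w`. -/
def Split (E : Type) [Field E] [Algebra K E] (w : ValuationSubring K) : Prop :=
  ∀ (L : Type) [Field L] (O : ValuationSubring L) (ι : E →+* L), Above E w L O ι →
    DenseIn O (ι.comp (algebraMap K E))

/-- The place `w` of `K` is unramified in `E`: the maximal ideal of every completion of `E` above
`w` is generated by elements of `K`. -/
def Unram (E : Type) [Field E] [Algebra K E] (w : ValuationSubring K) : Prop :=
  ∀ (L : Type) [Field L] (O : ValuationSubring L) (ι : E →+* L), Above E w L O ι →
    GenBy w O (ι.comp (algebraMap K E))

/-- `f` has coefficients in the local ring `R` and is irreducible over the residue field. -/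
def IrrMod (R : Type) [CommRing R] [IsLocalRing R] [Algebra R K] (f : K[X]) : Prop :=
  ∃ f₀ : R[X], f₀.map (algebraMap R K) = f ∧ Irreducible (f₀.map (IsLocalRing.residue R))

/-- `R[x]/(f)` is regular, `R` a discrete valuation ring: `f` has coefficients in `R`, and it is in no
`𝔪²`, `𝔪` a maximal ideal of `R[x]` which contains the maximal ideal of `R`. -/
def RegR (R : Type) [CommRing R] [IsLocalRing R] [Algebra R K] (f : K[X]) : Prop :=
  ∃ f₀ : R[X], f₀.map (algebraMap R K) = f ∧
    ∀ 𝔪 : Ideal R[X], 𝔪.IsMaximal → (∀ a ∈ IsLocalRing.maximalIdeal R, C a ∈ 𝔪) → f₀ ∉ 𝔪 ^ 2

/-- `f` has coefficients in `R`, and over the residue field it is the product of some `x - c` and an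
irreducible polynomial of degree `2 g`. -/
def LinIrr (g : ℕ) (R : Type) [CommRing R] [IsLocalRing R] [Algebra R K] (f : K[X]) : Prop :=
  ∃ f₀ : R[X], f₀.map (algebraMap R K) = f ∧
    ∃ (c : IsLocalRing.ResidueField R) (γ : (IsLocalRing.ResidueField R)[X]),
      γ.natDegree = 2 * g ∧ Irreducible γ ∧ f₀.map (IsLocalRing.residue R) = (X - C c) * γ

/-- `SelA` holds over every Galois extension `E` of `K` whose degree is a power of two, in which the
places of `T` split completely and the places `w ≠ v` modulo which `f` is not irreducible are
unramified. -/
def TowA (v : ValuationSubring K) (T : Finset (ValuationSubring K)) (f : K[X]) : Prop :=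
  ∀ (E : Type) [Field E] [Algebra K E], FiniteDimensional K E → IsGalois K E →
    (∃ m : ℕ, Module.finrank K E = 2 ^ m) → (∀ w ∈ T, Split E w) →
    (∀ w : ValuationSubring K, w ≠ ⊤ → w ≠ v → Unram E w ∨ IrrMod w f) →
    SelA E f

/-- The conditions on the finite sets `S`, `T`, `T'` of places. -/
def SetsV (v : ValuationSubring K) (S T T' : Finset (ValuationSubring K)) (E₀ : Type) [Field E₀]
    [Algebra K E₀] : Prop :=
  T.Nonempty ∧ Disjoint T T' ∧ S ⊆ T' ∧ (∀ w ∈ T', w ≠ ⊤ ∧ w ≠ v) ∧
    ∀ w ∈ T, w ≠ ⊤ ∧ w ≠ v ∧ Split E₀ w

/-! ### The local structure -/

/-- The local structure of `f`, of degree `2 g + 1`, for `v` and the finite sets `S`, `T`, `T'` of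
places.
(1) At the places outside `T`, `T'`, `v`: `RegR`; so `y² = f(x)` is a regular model with irreducible
reduced fibre.
(2) At the places of `S`: `f` has coefficients in `w` and is irreducible over the residue field.
(3) At the places of `T'` and at `v`: this holds for some `f.scaleRoots a`, `a ≠ 0`; so `f` is
irreducible over the completions.
(4) At the places of `T`: `LinIrr` holds for some `f.scaleRoots a⁻¹`, `a ≠ 0` a unit of `w` or a
generator of the maximal ideal of `w`; so the curve has good reduction or is the twist of such a curve
by a uniformizer. -/
def StrV (g : ℕ) (v : ValuationSubring K) (S T T' : Finset (ValuationSubring K)) (f : K[X]) :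
    Prop :=
  (∀ w : ValuationSubring K, w ≠ ⊤ → w ≠ v → w ∉ T → w ∉ T' → RegR w f) ∧
  (∀ w ∈ S, IrrMod w f) ∧
  (∀ w : ValuationSubring K, w ∈ T' ∨ w = v → ∃ a : K, a ≠ 0 ∧ IrrMod w (f.scaleRoots a)) ∧
  ∀ w ∈ T, ∃ a : K, a ≠ 0 ∧ a ∈ w ∧ (∀ x : K, x ∈ w → x⁻¹ ∉ w → x / a ∈ w) ∧
    LinIrr g w (f.scaleRoots a⁻¹)

/-- The properties of the equations `f` of the theorem. -/
def Good (N : ℕ) (v : ValuationSubring K) (S T T' : Finset (ValuationSubring K)) (E₀ : Type)
    [Field E₀] [Algebra K E₀] (f : K[X]) : Prop :=
  f.natDegree = N ∧ Irreducible f ∧ f.Separable ∧ SelD f ∧ (Even N → OneDefF f) ∧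
    (Odd N → SelA E₀ f ∧ TowA v T f ∧ StrV (N / 2) v S T T' f)

end Defs

section Same

variable {K : Type} [Field K]

theorem completion_iff {L : Type} [Field L] {O : ValuationSubring L} {ι : K →+* L} :
    Completion K L O ι ↔ Pool.TOW.Cpl K L O ι :=
  ⟨fun h => ⟨h.1, h.2, h.3, h.4⟩, fun h => ⟨h.1, h.2, h.3, h.4⟩⟩

theorem locD_iff {L : Type} [Field L] {ι : K →+* L} {f p : K[X]} :
    LocD ι f p ↔ Pool.T2.LocDv 1 (f.map ι) (p.map ι) := by
  unfold LocD Pool.T2.LocDv
  simp only [C_1, one_mul]

theorem selD_iff {f : K[X]} : SelD f ↔ Pool.T2.SelD 1 f := by
  unfold SelD Pool.T2.SelD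
  simp only [completion_iff, locD_iff, map_one]

theorem noOdd_iff {L : Type} [Field L] {ι : K →+* L} {f : K[X]} :
    NoOdd ι f ↔ Pool.T3.NoOddF (f.map ι) := Iff.rfl

theorem oneDefF_iff {f : K[X]} : OneDefF f ↔ Pool.T3.OneDefF f := by
  unfold OneDefF Pool.T3.OneDefF
  simp only [completion_iff, noOdd_iff]

theorem locM_iff {L : Type} [Field L] {ι : K →+* L} {m : ℕ} {f p : K[X]} :
    LocM ι m f p ↔ Pool.T1M.LocSolM m (f.map ι) (p.map ι) := Iff.rfl

theorem selM_iff {m : ℕ} {f : K[X]} : SelM m f ↔ Pool.T1M.SelM m f := by
  unfold SelM Pool.T1M.SelM
  simp only [completion_iff, locM_iff]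

theorem selA_iff {E : Type} [Field E] [Algebra K E] {f : K[X]} :
    SelA E f ↔ Pool.T1M.SelA (f.map (algebraMap K E)) := by
  unfold SelA Pool.T1M.SelA
  simp only [selM_iff]

theorem above_iff {E : Type} [Field E] [Algebra K E] {w : ValuationSubring K} {L : Type} [Field L]
    {O : ValuationSubring L} {ι : E →+* L} : Above E w L O ι ↔ Pool.T1.AbvV E w L O ι := by
  unfold Above Pool.T1.AbvV
  simp only [completion_iff]

theorem split_iff {E : Type} [Field E] [Algebra K E] {w : ValuationSubring K} :
    Split E w ↔ Pool.T1.SplV E w := by
  unfold Split Pool.T1.SplV
  simp only [above_iff]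
  exact Iff.rfl

theorem unram_iff {E : Type} [Field E] [Algebra K E] {w : ValuationSubring K} :
    Unram E w ↔ Pool.T1.UnrV E w := by
  unfold Unram Pool.T1.UnrV
  simp only [above_iff]
  exact Iff.rfl

theorem towA_iff {v : ValuationSubring K} {T : Finset (ValuationSubring K)} {f : K[X]} :
    TowA v T f ↔ Pool.T1M.TowA v T f := by
  unfold TowA Pool.T1M.TowA
  simp only [split_iff, unram_iff, selA_iff]
  exact Iff.rfl

theorem setsV_iff {v : ValuationSubring K} {S T T' : Finset (ValuationSubring K)} {E₀ : Type}
    [Field E₀] [Algebra K E₀] : SetsV v S T T' E₀ ↔ Pool.STR.SetsV v S T T' E₀ := by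
  unfold SetsV Pool.STR.SetsV
  simp only [split_iff]

theorem strV_iff {g : ℕ} {v : ValuationSubring K} {S T T' : Finset (ValuationSubring K)}
    {f : K[X]} : StrV g v S T T' f ↔ Pool.STR.StrV g v S T T' f := Iff.rfl

theorem eqnV_eq (v : ValuationSubring K) (N j h : ℕ) : EqnV v N j h = Pool.T3.EqnV v N j h := rfl

end Same

/-- For every finite field `F` of odd order, every finitely generated field `K` of transcendence
degree one over `F`, every place `v` of `K`, every `N ≥ 3` and `h ≥ 0`, every Galois extension `E₀` of
`K` of degree a power of two and every finite set `S` of places different from `v` there are finite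
sets `T` and `T'` of places (for odd `N` as in `SetsV`) and `δ > 0` such that for large `j` at least
`δ #(EqnV v N j h)` of the elements `f` of the finite, nonempty set `EqnV v N j h` have degree `N`, are
irreducible and separable, and satisfy: the 2-Selmer group of the Jacobian of `y² = f(x)` has trivial
image under `x - X`; if `N` is even there is exactly one place over which this curve has no divisor of
odd degree; if `N` is odd, then for every power `m` of two the `(1 - ζ_m)`-Selmer group of the Jacobian
of `y^m = f(x)` is trivial over `E₀` and over all Galois extensions `E` as above which contain a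
primitive `m`-th root of unity, and `f` has the local structure `StrV`; and, for odd `N` not zero in
`F`, the same for the elements with `a₁ = 0`. -/
theorem result (F : Type) [Field F] [Finite F] (h2 : (2 : F) ≠ 0) (K : Type) [Field K]
    [Algebra F K] [Algebra.EssFiniteType F K] (htr : Algebra.trdeg F K = 1)
    (v : ValuationSubring K) (hv : v ≠ ⊤) (N h : ℕ) (hN : 3 ≤ N)
    (E₀ : Type) [Field E₀] [Algebra K E₀] (hfin : FiniteDimensional K E₀) (hgal : IsGalois K E₀)
    (hdeg : ∃ m : ℕ, Module.finrank K E₀ = 2 ^ m)
    (S : Finset (ValuationSubring K)) (hS : ∀ w ∈ S, w ≠ ⊤ ∧ w ≠ v) :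
    ∃ T T' : Finset (ValuationSubring K), (Odd N → SetsV v S T T' E₀) ∧
    ∃ δ : ℝ, 0 < δ ∧ ∃ j0 : ℕ, ∀ j : ℕ, j0 ≤ j →
      (EqnV v N j h).Finite ∧ 0 < (EqnV v N j h).ncard ∧
      δ * (EqnV v N j h).ncard ≤ {f ∈ EqnV v N j h | Good N v S T T' E₀ f}.ncard ∧
      (Odd N → (N : F) ≠ 0 →
        0 < {f ∈ EqnV v N j h | f.coeff (N - 1) = 0}.ncard ∧
        δ * {f ∈ EqnV v N j h | f.coeff (N - 1) = 0}.ncard ≤
          {f ∈ EqnV v N j h | f.coeff (N - 1) = 0 ∧ Good N v S T T' E₀ f}.ncard) := by
  simp only [Good, selD_iff, oneDefF_iff, selA_iff, towA_iff, setsV_iff, strV_iff, eqnV_eq]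
  exact Pool.T3.eqn Pool.STR.All.h_intrstr Pool.T3.All.h_intus F h2 K htr v hv N h hN E₀ hfin hgal
    hdeg S hS

end Pool.Agent.Results.MP_0fca13_ag.HyperellipticSurfaces
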