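import Pool.Agent.H83.PDS.Proof

/-!
# Tate classes on products come from pairs, determinants and Gauss sums

`F` is a finite field with `q = p ^ f` elements, `ψ` a primitive additive character, `χ` runs over the
multiplicative characters.  The `y i` (`i` in `ι`) are the eigenvalues, up to roots of unity, of the
Frobenius on the cohomology in degree `w i` of some smooth projective varieties `X_1, ..., X_n` over
`F`, for example `w i = 1` for curves and abelian varieties, or `w i = dim X_k` for hypersurfaces.
Write `[i]` for the class of the motive of rank one (over the algebraic closure of `F`) which belongs
to an eigenvector `e_i`, `[χ]` for the class of `V(χ, ψ)`, the part of `h^1` of the curve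
`y ^ p - y = x ^ m` on which the Frobenius acts by the Gauss sum `- g(χ, ψ)` (all motives of Fermat
varieties are made of these), and `[L]` for the Lefschetz motive.

The Tate classes of codimension `c` on products of powers of the `X_k`, of Fermat varieties and of
curves `y ^ p - y = x ^ m` are spanned by tensor products of vectors `e_i`, `i ∈ l`, and of lines
`V(χ, ψ)`, `χ ∈ Z`, for lists `l` and `Z` such that
`(∏ y_i ∏ g(χ)) ^ N = q ^ (c N)` for some `N ≥ 1`.  The theorem says that all of them are
consequences, `∑ [i] + ∑ [χ] = c [L]`, of six kinds of isomorphisms:

* pairs: `[i] + [j] = w j [L]` if `y i y j = q ^ (w j)` up to a root of unity.  For curves and abelian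
  varieties these are divisor classes (Tate's theorem); for eigenvectors in `H^w(X_k)` of one `X_k`,
  `w = dim X_k`, whose eigenvalue has multiplicity one (up to roots of unity) they are combinations of
  graphs of powers of the Frobenius;
* determinants: `∑_{i ∈ b} [i] = ∑_{χ ∈ Y b} [χ] + d b [L]` if the `y i`, `i ∈ b`, are a complete set of
  conjugates over `E` (see below);
* for the Gauss sums: duality `[χ] + [χ⁻¹] = [L]`, the graph of the Frobenius `[χ ^ p] = [χ]`, Tate's
  theorem `[χ] = [χ']` for supersingular characters, and the cycles of the Davenport-Hasse formula
  (Aoki, Terasoma, Otsubo-Yamazaki) `∑ [χ ρ ^ j] = [χ ^ l] + ∑ [ρ ^ j]`.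

More precisely, this holds if the orders of the `χ` in `Z` and in the lists `Y b` are prime powers or
twice prime powers, or divide some `p ^ j + 1`, or are (twice) products of two coprime prime powers
which divide some `p ^ j + 1`; and the `2 f`-th multiple of the relation holds always.  If there are no
`X_k` this is our earlier result on products of Fermat varieties.

## The hypothesis `Generic`

Let `E` be a number field in `K` which contains powers of the Gauss sums `g(χ)`, `χ ∈ Z` (this makes the
hypothesis on `∏ y_i` in the theorem automatic), for example a cyclotomic field.  The hypothesis says
that the conjugates of `y i` over `E`, up to roots of unity, form an irreducible representation of the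
Galois group, and that the fields of `y i` and `y j` over `E` are different, or `y j` or
`q ^ w / y j` is a conjugate of `y i` over `E`, or `y i` and `y j` are close.  Irreducible means: the
functions `c` of sum zero on the set of conjugates with `c (q ^ w / z) = - c z` are an irreducible
representation over `ℚ`.  This is proved in `Pool.Agent.H85.OP.Irr`

* if the conjugates are permuted 2-transitively (`irred_of_twoTrans`), for example by the full
  symmetric group, as for unitary or general linear monodromy,
* if their number is prime (`irred_of_prime`; Ribet and Tankeev),
* if there is a change of sign, which exchanges `z` and `q ^ w / z` and fixes all other conjugates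
  (`irred_of_signChange`), for example in the Weyl group of `Sp`, as for symplectic monodromy.

It holds for all numbers of weight one with at most three conjugates over a field `E` with one prime
above `p` and slopes at the same distance from `1 / 2` (`generic_of_onePrime`).  Numbers which are
equal to all their conjugates up to roots of unity are allowed: a block with one element.

## Determinants

Let `X → P¹` be an abelian cover of exponent `m` prime to `p`, for example `y ^ m = f(x)`, and `V` the
part of `H¹(X)` which belongs to a character of the Galois group: the cohomology of a tensor product
of Kummer sheaves `χ_i(x - a_i)`, of dimension `r` if there are `r + 1` branch points `a_i` apart from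
infinity, where the character is `χ_∞`.  `Λ^r V` is a part of the cohomology of the symmetric power
`Sym^r`: monic polynomials `P` of degree `r` with the character `∏ χ_i(P(a_i))`, that is, by Lagrange
interpolation (`∑ P(a_i) / ∏_{k ≠ i} (a_i - a_k) = 1`), a part of the Fermat variety of degree `m` and
dimension `r` (compare Schoen, Terasoma).  So if a block `b` consists of all `r` eigenvalues on `V`
(conjugates over `E ⊇ ℚ(ζ_m)`) then the determinant relation is given by algebraic cycles, with `Y b`
the characters `χ_i` and `χ_∞`, and `d b = -1`.  For `y ^ p - y = f(x)` (`E = ℚ(ζ_p)`), `f` a polynomial
of degree four or with poles of orders one and two, `r = 3`, the character is `ψ(∑ f(x_j))`, which in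
terms of the elementary symmetric functions is linear in one variable and, where the coefficient
vanishes, a quadratic polynomial: the determinant is a quadratic Gauss sum times a power of `q`.

## Examples

Known cycles and the theorem give Q1 in all codimensions for

* arbitrary products of Fermat varieties (of degrees as above, which may differ) and of powers of
  abelian covers of `P¹` whose exponent is a prime power (or as above), of curves, abelian varieties,
  hypersurfaces of odd dimension, K3 surfaces, if the parts `V` (for hypersurfaces: the primitive
  cohomology; for K3 surfaces: the transcendental part) are irreducible in the sense above and have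
  different fields, as it is known for a proportion tending to one of the members of families with
  big monodromy (Katz, Chavdarov);
* all powers of curves `y³ = f(x)` of prime genus such that the eigenvalues on `V` are conjugate over
  `ℚ(ζ₃)` and different up to roots of unity, or all equal up to roots of unity (then take `E = ℚ`:
  two conjugates `z`, `q / z`, no blocks);
* all powers of all cyclic covers of `P¹` of degree `l` and genus `≤ 3 (l - 1) / 2`, where `l = p` or
  `p` is a primitive root modulo `l`; all products of curves `y ^ p - y = f(x)`, `deg f = 3` (slopes:
  Sperber), and of curves `y ^ p - y = a x + b / x`; all powers of an abelian variety of dimension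
  `[E : ℚ]` with real multiplication by a totally real Galois field `E` with one prime above `p`.

Sketch of the proof.  The slopes of `∏ y_i` are invariant under `Gal(K / E)`.  For `g` in `Gal(K / ℚ)`
let `t_i(g)` be the slope of `g (y i)` minus its mean over `Gal(K / E)`.  The `t_i` of different fields
are orthogonal: the sum of `t_i` over a normal subgroup which does not fix the conjugates vanishes by
irreducibility.  In one orbit the only relations are `t_i + t_j = 0` for pairs and `∑ t_i = 0` over a
complete set of conjugates, again by irreducibility and because slopes determine a Weil number up to
a root of unity.  So pairs and complete sets of conjugates can be removed until `l` is empty, and then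
the theorem for Gauss sums applies.
-/

set_option autoImplicit false

open Pool.PDS

namespace Pool.Agent.Results.MP_0fca13_ag.PairsAndDeterminants

/-- **Theorem.**  `K` is a Galois number field with a valuation `v`, `v q = 1`, and `E` a subfield.
The `y i` are Weil `q`-numbers in `K` of weights `w i` which satisfy `Generic`.  For every block `b` we
are given nontrivial characters `Y b` and an integer `d b` such that the product of the `y i`, `i ∈ b`,
is equal to the product of `q ^ (d b)` and of the Gauss sums of the `χ` in `Y b`, up to a root of
unity.  If `(∏_{i ∈ l} y_i ∏_{χ ∈ Z} g(χ)) ^ N = q ^ (c N)`, all `χ ∈ Z` are nontrivial and some power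
of `∏_{i ∈ l} y_i` is in `E`, then `∑_{i ∈ l} [i] + ∑_{χ ∈ Z} [χ] = c [L]` modulo the relations if all
orders are good, and `2 f` times the difference lies in the subgroup of relations always. -/
theorem result
    (p f : ℕ) (hp : p.Prime) (F : Type) [Field F] [Fintype F] (hF : Fintype.card F = p ^ f)
    (ψ : AddChar F ℂ) (hψ : ψ.IsPrimitive)
    (K : Type) [Field K] [NumberField K] [IsGalois ℚ K] (j : K →+* ℂ)
    (v : AddValuation K (WithTop ℚ)) (hv : v (Fintype.card F : K) = 1)
    (E : Type) [Field E] [Algebra E K] (ι : Type) (w : ι → ℕ) (y : ι → K)
    (hy : ∀ i, IsWeil (Fintype.card F) (w i) (y i)) (hG : Generic v E (Fintype.card F) w y)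
    (Y : List ι → List (MulChar F ℂ)) (d : List ι → ℤ)
    (hY : ∀ b, IsBlock E (Fintype.card F) w y b → (∀ χ ∈ Y b, χ ≠ 1) ∧
      Sim (j (b.map y).prod)
        (((Y b).map fun χ => gaussSum χ ψ).prod * (Fintype.card F : ℂ) ^ d b))
    (l : List ι) (hl : ∃ n : ℕ, 0 < n ∧ (l.map y).prod ^ n ∈ Set.range (algebraMap E K))
    (Z : List (MulChar F ℂ)) (hZ : ∀ χ ∈ Z, χ ≠ 1) (c N : ℕ) (hN : 0 < N)
    (htate : (j (l.map y).prod * (Z.map fun χ => gaussSum χ ψ).prod) ^ N =
      (Fintype.card F : ℂ) ^ (c * N)) :
    ((∀ χ, (χ ∈ Z ∨ ∃ b, IsBlock E (Fintype.card F) w y b ∧ χ ∈ Y b) → Good p (orderOf χ)) →
      (l.map (line F)).sum + (Z.map (cls ι)).sum - c • lef ι F ∈ relations p E w y Y d) ∧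
    (2 * f) • ((l.map (line F)).sum + (Z.map (cls ι)).sum - c • lef ι F) ∈
      relations p E w y Y d :=
  main p f hp F hF ψ hψ K j v hv E ι w y hy hG Y d hY l hl Z hZ c N hN htate

end Pool.Agent.Results.MP_0fca13_ag.PairsAndDeterminants
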